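import Mathlib

set_option autoImplicit false

namespace Pool.Agent.Results.MP_2d361f_co.NotSymm

/-- the set `E(X;A,B)` -/
def Ex {α : Type} (M : Matroid α) (X A B : Set α) : Set (Set α) :=
  {Y | Y ⊆ B ∧ M.IsBase ((A \ X) ∪ Y) ∧ M.IsBase ((B \ Y) ∪ X)}

/-- `C` arises from the base sequence `B` by one unique subset exchange -/
def Step {α : Type} (M : Matroid α) {m : ℕ} (B C : Fin m → Set α) : Prop :=
  (∀ k, M.IsBase (B k)) ∧ ∃ i j : Fin m, i < j ∧ ∃ X Y, X ⊆ B i ∧ Ex M X (B i) (B j) = {Y} ∧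
    C = Function.update (Function.update B i ((B i \ X) ∪ Y)) j ((B j \ Y) ∪ X)

def code (s : Finset (Fin 8)) : ℕ := ∑ i ∈ s, 2 ^ i.val

def bs (s : Finset (Fin 8)) : Bool := Nat.testBit 1773910579891458344282680929341343959220625454047183476979535601280778240 (code s)

def inv (s : Finset (Fin 8)) : Bool := Nat.testBit 6582419963797432284753790295001664911183563226312977711169011712 (code s)

theorem exch : ∀ X, bs X = true → ∀ Y, bs Y = true → ∀ a ∈ X \ Y, ∃ b ∈ Y \ X,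
    bs (insert b (X \ {a})) = true := by decide +kernel

theorem clos : ∀ A, inv A = true → ∀ X ∈ A.powerset, ∀ Y ∈ Aᶜ.powerset, bs ((A \ X) ∪ Y) = true →
    bs ((Aᶜ \ Y) ∪ X) = true → (inv ((A \ X) ∪ Y) = true ∧ (Aᶜ \ Y) ∪ X = ((A \ X) ∪ Y)ᶜ) ∨
      ∃ Z ∈ Aᶜ.powerset, Z ≠ Y ∧ bs ((A \ X) ∪ Z) = true ∧ bs ((Aᶜ \ Z) ∪ X) = true := by
  decide +kernel

def M : Matroid (Fin 8) := Matroid.ofIsBaseOfFinite (E := Set.univ) Set.finite_univ
  (fun B => ∃ s : Finset (Fin 8), bs s = true ∧ B = s)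
  ⟨_, {0, 1, 4, 6}, by decide +kernel, rfl⟩ (by
    rintro _ _ ⟨X, hX, rfl⟩ ⟨Y, hY, rfl⟩ a ha
    obtain ⟨b, hb, h⟩ := exch X hX Y hY a (by simpa using ha)
    exact ⟨b, by simpa using hb, _, h, by simp⟩) (fun _ _ => Set.subset_univ _)

theorem base_iff (s : Finset (Fin 8)) : M.IsBase s ↔ bs s = true :=
  ⟨fun ⟨_, h, e⟩ => Finset.coe_injective e ▸ h, fun h => ⟨s, h, rfl⟩⟩

theorem ex_iff (X A B Y : Finset (Fin 8)) : (Y : Set (Fin 8)) ∈ Ex M X A B ↔
    Y ∈ B.powerset ∧ bs ((A \ X) ∪ Y) = true ∧ bs ((B \ Y) ∪ X) = true := by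
  rw [← base_iff, ← base_iff]
  simp [Ex]

def P (B : Fin 2 → Set (Fin 8)) : Prop :=
  ∃ A : Finset (Fin 8), inv A = true ∧ B 0 = A ∧ B 1 = (Aᶜ : Finset (Fin 8))

theorem step (B C : Fin 2 → Set (Fin 8)) (h : Step M B C) (hB : P B) : P C := by
  obtain ⟨-, i, j, hij, X, Y, hX, hE, rfl⟩ := h
  obtain ⟨A, hA, h0, h1⟩ := hB
  obtain ⟨rfl, rfl⟩ : i = 0 ∧ j = 1 := by omega
  lift X to Finset (Fin 8) using Set.toFinite _
  lift Y to Finset (Fin 8) using Set.toFinite _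
  rw [h0] at hX
  rw [h0, h1] at hE ⊢
  obtain ⟨a1, a2, a3⟩ := (ex_iff X A Aᶜ Y).1 (by rw [hE]; rfl)
  rcases clos A hA X (by simpa using hX) Y a1 a2 a3 with ⟨b1, b2⟩ | ⟨Z, b1, b2, b3⟩
  · exact ⟨_, b1, by simp, by rw [← b2]; simp⟩
  · have := (ex_iff X A Aᶜ Z).2 ⟨b1, b3⟩
    rw [hE] at this
    exact absurd (Finset.coe_injective this) b2

theorem result : ∃ (M : Matroid (Fin 8)) (B C : Fin 2 → Set (Fin 8)), (∀ k, M.IsBase (B k)) ∧
    (∀ k, M.IsBase (C k)) ∧ Step M B C ∧ ¬ Relation.ReflTransGen (Step M) C B := by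
  let a : Finset (Fin 8) := {0, 1, 4, 6}
  let c : Finset (Fin 8) := {0, 2, 5, 6}
  let x : Finset (Fin 8) := {1, 4}
  let y : Finset (Fin 8) := {2, 5}
  have hb : ∀ k, M.IsBase (![(a : Set (Fin 8)), (aᶜ : Finset (Fin 8))] k) := by
    intro k
    fin_cases k <;> exact (base_iff _).2 (by decide +kernel)
  refine ⟨M, ![a, (aᶜ : Finset (Fin 8))], ![c, (cᶜ : Finset (Fin 8))], hb, ?_,
    ⟨hb, 0, 1, by decide, x, y, ?_, ?_, ?_⟩, fun h => ?_⟩
  · intro k
    fin_cases k <;> exact (base_iff _).2 (by decide +kernel)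
  · exact Finset.coe_subset.2 (by decide)
  · ext Z
    lift Z to Finset (Fin 8) using Set.toFinite _
    refine (ex_iff x a aᶜ Z).trans ?_
    rw [Set.mem_singleton_iff, Finset.coe_inj]
    revert Z
    decide +kernel
  · have e1 : c = (a \ x) ∪ y := by decide
    have e2 : cᶜ = (aᶜ \ y) ∪ x := by decide
    funext k
    fin_cases k
    · simp [e1]
    · rw [e2]; simp
  · have : P ![a, (aᶜ : Finset (Fin 8))] := by
      have key : ∀ D, Relation.ReflTransGen (Step M) ![c, (cᶜ : Finset (Fin 8))] D → P D := by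
        intro D hD
        induction hD with
        | refl => exact ⟨c, by decide +kernel, rfl, rfl⟩
        | tail _ h ih => exact step _ _ h ih
      exact key _ h
    obtain ⟨A, hA, h0, -⟩ := this
    have : a = A := Finset.coe_injective h0
    subst this
    revert hA
    decide +kernel

end Pool.Agent.Results.MP_2d361f_co.NotSymm
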